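import Pool.Agent.REV.StmtsG2

/-! REV, row MOP: permutation of the first two vectors, repeated vector. -/

set_option autoImplicit false

open MeasureTheory Module Set Filter
open scoped RealInnerProductSpace Pointwise Topology ENNReal

namespace Pool.Agent.REV.H10

open Pool.Agent.REV Pool.Agent.BPH Pool.Agent.Helper55_PB Pool.Agent.Helper28_PB

theorem cns_swap {E : Type} {j : ℕ} (a b : E) (v : Fin j → E) (i : Fin (j + 1 + 1)) :
    cns a (cns b v) (Equiv.swap 0 1 i) = cns b (cns a v) i := by
  refine Fin.cases ?_ (fun i => ?_) i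
  · rw [Equiv.swap_apply_left]
    rfl
  · refine Fin.cases ?_ (fun i => ?_) i
    · have h : (Fin.succ 0 : Fin (j + 1 + 1)) = 1 := rfl
      rw [h, Equiv.swap_apply_right]
      rfl
    · have h1 : (i.succ.succ : Fin (j + 1 + 1)) ≠ 0 := Fin.succ_ne_zero _
      have h2 : (i.succ.succ : Fin (j + 1 + 1)) ≠ 1 := by
        intro h
        have h3 := congrArg Fin.val h
        simp at h3
      rw [Equiv.swap_apply_of_ne_of_ne h1 h2]
      rfl

theorem mop : MopStmt := by
  intro E _ _ _ j a b v
  constructor
  · unfold gw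
    congr 1
    rw [← Matrix.det_submatrix_equiv_self (Equiv.swap 0 1) (Matrix.gram ℝ (cns a (cns b v)))]
    congr 1
    ext i l
    rw [Matrix.submatrix_apply, Matrix.gram_apply, Matrix.gram_apply, cns_swap, cns_swap]
  · unfold gw
    rw [Real.sqrt_eq_zero']
    refine le_of_eq ?_
    refine Matrix.det_zero_of_row_eq (i := (0 : Fin (j + 1 + 1))) (j := 1) (by
      intro h
      have h3 := congrArg Fin.val h
      simp at h3) ?_
    ext l
    rw [Matrix.gram_apply, Matrix.gram_apply]
    rfl

end Pool.Agent.REV.H10
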