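import Pool.Agent.REV.StmtsG

/-! REV, row RLE: the law of the two components in the ball. -/

set_option autoImplicit false

open MeasureTheory Module Set Filter
open scoped RealInnerProductSpace Pointwise Topology ENNReal

namespace Pool.Agent.REV.H10

open Pool.Agent.REV Pool.Agent.BPH Pool.Agent.Helper55_PB Pool.Agent.Helper28_PB

theorem nrm_meas (E : Type) [NormedAddCommGroup E] [InnerProductSpace ℝ E]
    [FiniteDimensional ℝ E] [MeasurableSpace E] [BorelSpace E] :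
    Measurable (fun x : E => nrm x) := by
  unfold nrm
  exact (measurable_norm.inv).smul measurable_id

theorem int_ball {E : Type} [NormedAddCommGroup E] [InnerProductSpace ℝ E]
    [FiniteDimensional ℝ E] [MeasurableSpace E] [BorelSpace E] (q : ℕ) (Ψ : E → ℝ)
    (hΨ : Tst Ψ) :
    IntegrableOn (fun x : E => ‖x‖ ^ q * Ψ (nrm x)) (Metric.ball (0 : E) 1) := by
  obtain ⟨C, hC⟩ := hΨ.bdd
  have hm : Measurable (fun x : E => ‖x‖ ^ q * Ψ (nrm x)) :=
    (measurable_norm.pow_const q).mul (hΨ.meas.comp (nrm_meas E))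
  refine Measure.integrableOn_of_bounded (M := C) measure_ball_lt_top.ne
    hm.aestronglyMeasurable ?_
  refine (ae_restrict_iff' measurableSet_ball).mpr (Eventually.of_forall (fun x hx => ?_))
  have h1 : ‖x‖ < 1 := by simpa using hx
  rw [Real.norm_eq_abs, abs_mul, abs_of_nonneg (pow_nonneg (norm_nonneg x) q)]
  have h2 : ‖x‖ ^ q ≤ 1 := pow_le_one₀ (norm_nonneg x) h1.le
  have h3 : |Ψ (nrm x)| ≤ C := hC _
  have h4 : 0 ≤ |Ψ (nrm x)| := abs_nonneg _
  calc ‖x‖ ^ q * |Ψ (nrm x)| ≤ 1 * |Ψ (nrm x)| := mul_le_mul_of_nonneg_right h2 h4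
    _ ≤ C := by rw [one_mul]; exact h3

theorem rle (dec : DecStmt) : RleStmt := by
  intro E X V _ _ _ _ _ _ _ _ _ _ _ _ _ _ _ _ A B hAB hdim q Ψ Γ hΨ hΓ hrel
  rw [← integral_indicator measurableSet_ball,
    dec E X V A B hAB hdim _ ((int_ball q Ψ hΨ).integrable_indicator measurableSet_ball)]
  have hnorm : ∀ (y : X) (z : V), ‖A y + B z‖ ^ 2 = ‖y‖ ^ 2 + ‖z‖ ^ 2 := by
    intro y z
    have h := norm_add_sq_eq_norm_sq_add_norm_sq_real (hAB y z)
    rw [A.norm_map, B.norm_map] at h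
    rw [sq, sq, sq]
    exact h
  have key : ∀ z : V, ∫ y : X, (Metric.ball (0 : E) 1).indicator
      (fun x : E => ‖x‖ ^ q * Ψ (nrm x)) (A y + B z) =
      finrank ℝ X * (volume (Metric.ball (0 : X) 1)).toReal *
        ∫ r in Ioi (0 : ℝ), if r ^ 2 + ‖z‖ ^ 2 < 1 then
          r ^ (finrank ℝ X - 1 + q) * Γ (r / Real.sqrt (r ^ 2 + ‖z‖ ^ 2),
            (Real.sqrt (r ^ 2 + ‖z‖ ^ 2))⁻¹ • z) else 0 := by
    intro z
    have h1 : ∀ᵐ y : X, (Metric.ball (0 : E) 1).indicator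
        (fun x : E => ‖x‖ ^ q * Ψ (nrm x)) (A y + B z) =
        (fun r : ℝ => if r ^ 2 + ‖z‖ ^ 2 < 1 then
          r ^ q * Γ (r / Real.sqrt (r ^ 2 + ‖z‖ ^ 2),
            (Real.sqrt (r ^ 2 + ‖z‖ ^ 2))⁻¹ • z) else 0) ‖y‖ := by
      have h2 : ∀ᵐ y : X, y ≠ 0 := by
        rw [ae_iff]
        have : {a : X | ¬ a ≠ 0} = {0} := by
          ext a
          simp
        rw [this]
        exact measure_singleton 0
      filter_upwards [h2] with y hy
      have hy0 : 0 < ‖y‖ := norm_pos_iff.mpr hy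
      have hs2 : 0 < ‖y‖ ^ 2 + ‖z‖ ^ 2 := by positivity
      have hs : ‖A y + B z‖ = Real.sqrt (‖y‖ ^ 2 + ‖z‖ ^ 2) := by
        rw [← hnorm y z, Real.sqrt_sq (norm_nonneg _)]
      have hspos : 0 < Real.sqrt (‖y‖ ^ 2 + ‖z‖ ^ 2) := Real.sqrt_pos.mpr hs2
      set s := Real.sqrt (‖y‖ ^ 2 + ‖z‖ ^ 2) with hsdef
      have hss : s ^ 2 = ‖y‖ ^ 2 + ‖z‖ ^ 2 := Real.sq_sqrt hs2.le
      by_cases hb : ‖y‖ ^ 2 + ‖z‖ ^ 2 < 1
      · have hmem : A y + B z ∈ Metric.ball (0 : E) 1 := by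
          rw [mem_ball_zero_iff, hs]
          by_contra hcon
          push Not at hcon
          have : 1 ≤ s ^ 2 := by nlinarith
          rw [hss] at this
          linarith
        rw [indicator_of_mem hmem, if_pos hb]
        have e1 : nrm (A y + B z) = A (s⁻¹ • y) + B (s⁻¹ • z) := by
          unfold nrm
          rw [hs, smul_add, map_smul, map_smul]
        have e2 : ‖s⁻¹ • y‖ = ‖y‖ / s := by
          rw [norm_smul, norm_inv, Real.norm_of_nonneg hspos.le]
          field_simp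
        have e3 : ‖s⁻¹ • z‖ = ‖z‖ / s := by
          rw [norm_smul, norm_inv, Real.norm_of_nonneg hspos.le]
          field_simp
        have e4 : ‖s⁻¹ • y‖ ^ 2 + ‖s⁻¹ • z‖ ^ 2 = 1 := by
          rw [e2, e3, div_pow, div_pow, ← add_div, ← hss, div_self (pow_ne_zero 2 hspos.ne')]
        rw [e1, hrel _ _ e4, e2, hs, ← mul_assoc, ← mul_pow, mul_div_cancel₀ _ hspos.ne']
      · have hmem : A y + B z ∉ Metric.ball (0 : E) 1 := by
          rw [mem_ball_zero_iff, hs]
          intro hcon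
          apply hb
          rw [← hss]
          nlinarith
        rw [indicator_of_notMem hmem, if_neg hb]
    have h3 := integral_fun_norm_addHaar (volume : Measure X)
      (fun r : ℝ => if r ^ 2 + ‖z‖ ^ 2 < 1 then
          r ^ q * Γ (r / Real.sqrt (r ^ 2 + ‖z‖ ^ 2),
            (Real.sqrt (r ^ 2 + ‖z‖ ^ 2))⁻¹ • z) else 0)
    rw [integral_congr_ae h1]
    refine h3.trans ?_
    rw [nsmul_eq_mul, smul_eq_mul, ← mul_assoc]
    congr 1
    refine setIntegral_congr_fun measurableSet_Ioi (fun r _ => ?_)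
    simp only [smul_eq_mul]
    split_ifs
    · rw [pow_add]; ring
    · rw [mul_zero]
  rw [integral_congr_ae (Eventually.of_forall key), integral_const_mul]
  rfl

end Pool.Agent.REV.H10
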