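import Pool.Agent.REV.StmtsC

/-! REV, row SVB: volume increments of a ball. -/

open MeasureTheory Module Set Filter
open scoped RealInnerProductSpace Pointwise Topology ENNReal

namespace Pool.Agent.REV.H10

open Pool.Agent.REV Pool.Agent.Helper55_PB Pool.Agent.Helper28_PB

theorem svb : SvbStmt := by
  intro E _ _ _ _ _ _ R hR w
  by_cases hw : w = 0
  · rw [hw, segVol_zero, norm_zero, zero_mul]
  · obtain ⟨e, he, hwe⟩ := exists_unit w hw
    have h1 := segVol_eq (isCompact_closedBall (0 : E) R) (convex_closedBall (0 : E) R) he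
      (norm_nonneg w)
    rw [← hwe] at h1
    have h2 : finrank ℝ ((ℝ ∙ e)ᗮ : Submodule ℝ E) = finrank ℝ E - 1 := by
      have := Helper28_PB.finrank_perp he
      omega
    rw [h1, shadowVol, proj_closedBall, volume_ball_eq _ hR, h2]

end Pool.Agent.REV.H10
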