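import Pool.Agent.REV.StmtsV3

set_option autoImplicit false

/-! REV, row VM3 (`n = 3`). -/

namespace Pool.Agent.REV.H10

open Set MeasureTheory Filter
open scoped Topology
open Pool.Agent.REV

theorem cb_nonneg {b : ℝ} (hb : 0 ≤ b) : 0 ≤ cb b := by
  unfold cb
  exact div_nonneg hb (Real.sqrt_nonneg _)

theorem cb_le {b : ℝ} (hb : 0 ≤ b) : cb b ≤ b := by
  unfold cb
  have h1 : (1 : ℝ) ≤ Real.sqrt (1 + b ^ 2) := Real.one_le_sqrt.2 (by nlinarith [sq_nonneg b])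
  exact div_le_self hb h1

theorem cb_le_one (b : ℝ) : cb b ≤ 1 := by
  unfold cb
  have h1 : (0 : ℝ) < Real.sqrt (1 + b ^ 2) := Real.sqrt_pos.2 (by positivity)
  rw [div_le_one h1]
  exact Real.le_sqrt_of_sq_le (by linarith)

theorem cb_zero : cb 0 = 0 := by
  unfold cb
  simp

theorem cb_tendsto : Tendsto cb atTop (𝓝 1) := by
  have h1 : Tendsto (fun b : ℝ => (1 + (b ^ 2)⁻¹ : ℝ)) atTop (𝓝 (1 + 0)) := by
    refine tendsto_const_nhds.add ?_
    exact (tendsto_pow_atTop (two_ne_zero)).inv_tendsto_atTop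
  have h2 : Tendsto (fun b : ℝ => (Real.sqrt (1 + (b ^ 2)⁻¹))⁻¹) atTop (𝓝 1) := by
    have := (h1.sqrt).inv₀ (by simp)
    simpa using this
  refine h2.congr' ?_
  filter_upwards [eventually_gt_atTop (0 : ℝ)] with b hb
  unfold cb
  have e : (1 : ℝ) + b ^ 2 = b ^ 2 * (1 + (b ^ 2)⁻¹) := by
    field_simp
    ring
  rw [e, Real.sqrt_mul (by positivity), Real.sqrt_sq hb.le]
  field_simp

theorem RA_nonneg3 {f : ℝ → ℝ} (hf : Prf f) (c : ℝ) : 0 ≤ RA 3 f c := by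
  unfold RA
  refine intervalIntegral.integral_nonneg zero_le_one ?_
  intro r hr
  have h1 : (0 : ℝ) ≤ 1 - r ^ 2 := by
    have := hr.1
    have := hr.2
    nlinarith
  exact mul_nonneg (Real.rpow_nonneg h1 _) (hf.nonneg _)

theorem RA_le3 {f : ℝ → ℝ} (hf : Prf f) {M : ℝ} (hM : ∀ t, f t ≤ M)
    (c : ℝ) : RA 3 f c ≤ M := by
  have h := intervalIntegral.norm_integral_le_of_norm_le_const (a := (0 : ℝ)) (b := 1) (C := M)
    (f := fun r => (1 - r ^ 2) ^ ((((3 : ℕ) : ℝ) - 2) / 2) * f (r * c)) (by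
      intro r hr
      rw [uIoc_of_le zero_le_one] at hr
      have h0 := hr.1
      have h2 := hr.2
      have h1 : (0 : ℝ) ≤ 1 - r ^ 2 := by nlinarith
      have h3 : (1 - r ^ 2 : ℝ) ^ ((((3 : ℕ) : ℝ) - 2) / 2) ≤ 1 :=
        Real.rpow_le_one h1 (by nlinarith) (by norm_num)
      rw [Real.norm_eq_abs, abs_of_nonneg (mul_nonneg (Real.rpow_nonneg h1 _) (hf.nonneg _))]
      calc (1 - r ^ 2 : ℝ) ^ ((((3 : ℕ) : ℝ) - 2) / 2) * f (r * c) ≤ 1 * M :=
            mul_le_mul h3 (hM _) (hf.nonneg _) zero_le_one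
        _ = M := one_mul M)
  have h' : RA 3 f c ≤ M * |1 - 0| := (le_abs_self _).trans h
  simpa using h'

theorem int_g : IntervalIntegrable (fun r : ℝ => (1 - r) ^ (-(1 / 2) : ℝ)) volume 0 1 := by
  have h := (intervalIntegral.intervalIntegrable_rpow' (a := 0) (b := 1)
    (r := (-(1 / 2) : ℝ)) (by norm_num)).comp_sub_left 1
  simp only [sub_zero, sub_self] at h
  exact h.symm

theorem RB_le3 {f : ℝ → ℝ} (hf : Prf f) {M : ℝ} (hM : ∀ t, f t ≤ M) (c : ℝ) :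
    |RB 3 f c| ≤ M * ∫ r in (0 : ℝ)..1, (1 - r) ^ (-(1 / 2) : ℝ) := by
  have hM0 : 0 ≤ M := (hf.nonneg 0).trans (hM 0)
  unfold RB
  rw [← intervalIntegral.integral_const_mul, ← Real.norm_eq_abs]
  refine intervalIntegral.norm_integral_le_of_norm_le zero_le_one
    (Eventually.of_forall fun r hr => ?_) (int_g.const_mul M)
  have h0 := hr.1
  have h2 := hr.2
  have h1 : (0 : ℝ) ≤ 1 - r ^ 2 := by nlinarith
  have he : (((3 : ℕ) : ℝ) - 4) / 2 = -(1 / 2) := by norm_num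
  rw [he, Real.norm_eq_abs, abs_of_nonneg (mul_nonneg (mul_nonneg (sq_nonneg r)
    (Real.rpow_nonneg h1 _)) (hf.nonneg _))]
  have h3 : (1 - r ^ 2 : ℝ) ^ (-(1 / 2) : ℝ) ≤ (1 - r) ^ (-(1 / 2) : ℝ) := by
    rcases eq_or_lt_of_le h2 with h | h
    · rw [h]
      norm_num
    · exact Real.rpow_le_rpow_of_nonpos (by linarith) (by nlinarith) (by norm_num)
  have h4 : r ^ 2 * (1 - r ^ 2 : ℝ) ^ (-(1 / 2) : ℝ) ≤ 1 * (1 - r) ^ (-(1 / 2) : ℝ) :=
    mul_le_mul (by nlinarith) h3 (Real.rpow_nonneg h1 _) zero_le_one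
  have h5 : (0 : ℝ) ≤ 1 * (1 - r) ^ (-(1 / 2) : ℝ) :=
    mul_nonneg zero_le_one (Real.rpow_nonneg (by linarith) _)
  calc r ^ 2 * (1 - r ^ 2) ^ (-(1 / 2) : ℝ) * f (r * c) ≤ 1 * (1 - r) ^ (-(1 / 2) : ℝ) * M :=
        mul_le_mul h4 (hM _) (hf.nonneg _) h5
    _ = M * (1 - r) ^ (-(1 / 2) : ℝ) := by ring

/-- Row VM3. -/
theorem vm3 (VD3 : Vd3Stmt) (YD3 : Yd3Stmt) : Vm3Stmt := by
  intro f hf
  obtain ⟨hd, -, -⟩ := VD3 f hf
  obtain ⟨M, hM⟩ := hf.bdd
  have hM0 : 0 ≤ M := (hf.nonneg 0).trans (hM 0)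
  have hbd : ∃ C, ∀ t, |f t| ≤ C := ⟨M, fun t => by rw [abs_of_nonneg (hf.nonneg t)]; exact hM t⟩
  have hyb0 : yb 3 f 0 = 0 := by
    unfold yb
    rw [cb_zero, zero_mul]
  have hnn : ∀ b : ℝ, 0 ≤ b → 0 ≤ yb 3 f b := fun b hb =>
    mul_nonneg (cb_nonneg hb) (RA_nonneg3 hf _)
  have hle : ∀ b : ℝ, 0 ≤ b → yb 3 f b ≤ M * b := by
    intro b hb
    unfold yb
    calc cb b * RA 3 f (cb b) ≤ b * M :=
          mul_le_mul (cb_le hb) (RA_le3 hf hM _) (RA_nonneg3 hf _) hb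
      _ = M * b := mul_comm _ _
  have hcont : ContinuousOn (yb 3 f) (Ici 0) := by
    intro b hb
    rcases eq_or_lt_of_le (show (0 : ℝ) ≤ b from hb) with h | h
    · rw [← h]
      unfold ContinuousWithinAt
      rw [hyb0]
      refine tendsto_of_tendsto_of_tendsto_of_le_of_le' (g := fun _ => (0 : ℝ)) (h := fun b => M * b)
        tendsto_const_nhds ?_ ?_ ?_
      · have : Tendsto (fun b : ℝ => M * b) (𝓝 0) (𝓝 (M * 0)) :=
          (continuous_const.mul continuous_id).tendsto 0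
        rw [mul_zero] at this
        exact this.mono_left nhdsWithin_le_nhds
      · filter_upwards [self_mem_nhdsWithin] with x hx using hnn x hx
      · filter_upwards [self_mem_nhdsWithin] with x hx using hle x hx
    · exact (hd b h).1.continuousAt.continuousWithinAt
  have hmono : MonotoneOn (yb 3 f) (Ici 0) := by
    refine monotoneOn_of_deriv_nonneg (convex_Ici 0) hcont ?_ ?_
    · intro b hb
      rw [interior_Ici] at hb
      exact (hd b hb).1.differentiableAt.differentiableWithinAt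
    · intro b hb
      rw [interior_Ici] at hb
      rw [(hd b hb).1.deriv]
      exact mul_nonneg (div_nonneg zero_le_one (pow_nonneg (le_of_lt hb) 3)) (hd b hb).2.2.1
  have htend : Tendsto (yb 3 f) atTop (𝓝 (RA 3 f 1)) := by
    have h1 := (YD3 f 1 hf.meas hbd one_pos).continuousAt.tendsto
    have h2 := h1.comp cb_tendsto
    simp only [one_mul] at h2
    exact h2
  have hub : ∀ b : ℝ, 0 ≤ b → yb 3 f b ≤ RA 3 f 1 := by
    intro b hb
    refine ge_of_tendsto htend ?_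
    filter_upwards [eventually_ge_atTop b] with b' hb'
    exact hmono hb (hb.trans hb') hb'
  have hphT : Tendsto (ph 3 f) atTop (𝓝 (RA 3 f 1 ^ 2)) := htend.pow 2
  have hphC : ∀ B : ℝ, 0 ≤ B → ContinuousWithinAt (ph 3 f) (Ici B) B := by
    intro B hB
    have h := (hcont B hB).mono (Ici_subset_Ici.2 hB)
    exact h.pow 2
  have hint : IntegrableOn (dph 3 f) (Ioi 0) :=
    integrableOn_Ioi_deriv_of_nonneg (hphC 0 le_rfl) (fun x hx => (hd x hx).2.1)
      (fun x hx => (hd x hx).2.2.2) hphT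
  have hval : ∀ B : ℝ, 0 ≤ B → ∫ β in Ioi B, dph 3 f β = RA 3 f 1 ^ 2 - ph 3 f B := by
    intro B hB
    exact integral_Ioi_of_hasDerivAt_of_nonneg (hphC B hB)
      (fun x hx => (hd x (lt_of_le_of_lt hB hx)).2.1)
      (fun x hx => (hd x (lt_of_le_of_lt hB hx)).2.2.2) hphT
  have hK : (0 : ℝ) ≤ ∫ r in (0 : ℝ)..1, (1 - r) ^ (-(1 / 2) : ℝ) := by
    refine intervalIntegral.integral_nonneg zero_le_one ?_
    intro r hr
    exact Real.rpow_nonneg (by linarith [hr.2]) _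
  have hMK : 0 ≤ M * ∫ r in (0 : ℝ)..1, (1 - r) ^ (-(1 / 2) : ℝ) := mul_nonneg hM0 hK
  refine ⟨hmono, hcont, RA_nonneg3 hf 1, fun b hb => ⟨hnn b hb, hub b hb⟩,
    ⟨M + M * ∫ r in (0 : ℝ)..1, (1 - r) ^ (-(1 / 2) : ℝ), add_nonneg hM0 hMK,
      fun b hb => ⟨?_, ?_, ?_⟩⟩, htend, hint, ?_, hval⟩
  · have h1 := hle b hb
    have h2 := mul_nonneg hMK hb
    linarith [add_mul M (M * ∫ r in (0 : ℝ)..1, (1 - r) ^ (-(1 / 2) : ℝ)) b]
  · have h1 : yb 3 f b ≤ M := by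
      unfold yb
      calc cb b * RA 3 f (cb b) ≤ 1 * M :=
            mul_le_mul (cb_le_one b) (RA_le3 hf hM _) (RA_nonneg3 hf _) zero_le_one
        _ = M := one_mul M
    linarith
  · have h1 := RB_le3 hf hM (cb b)
    have h2 : cb b ^ 3 ≤ 1 := pow_le_one₀ (cb_nonneg hb) (cb_le_one b)
    have h3 : 0 ≤ cb b ^ 3 := pow_nonneg (cb_nonneg hb) 3
    have h4 : zb 3 f b ≤ |RB 3 f (cb b)| := by
      unfold zb
      calc cb b ^ 3 * RB 3 f (cb b) ≤ cb b ^ 3 * |RB 3 f (cb b)| :=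
            mul_le_mul_of_nonneg_left (le_abs_self _) h3
        _ ≤ 1 * |RB 3 f (cb b)| := mul_le_mul_of_nonneg_right h2 (abs_nonneg _)
        _ = |RB 3 f (cb b)| := one_mul _
    linarith
  · have h := hval 0 le_rfl
    have hph0 : ph 3 f 0 = 0 := by
      unfold ph
      rw [hyb0]
      norm_num
    rw [hph0, sub_zero] at h
    exact h

end Pool.Agent.REV.H10
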